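import Pool.Agent.W232.VA.L

/-! Hyperplanes in general position: the sum of the local heights over all places. -/

set_option autoImplicit false
set_option linter.unusedSectionVars false

namespace Pool.Agent.Q38.HP

open NumberField IsDedekindDomain Finset Height
open Pool.Agent.H691R3 (fv Nv log_product_formula fv_support_finite)
open Pool.Agent.W232.VA

variable {K : Type*} [Field K] {n r : ℕ}

/-- any `n + 1` of the forms are independent -/
def GP (a : Fin r → Fin (n + 1) → K) : Prop :=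
  ∀ I : Finset (Fin r), I.card = n + 1 → LinearIndependent K (fun i : I => a i)

theorem GP.ne_zero {a : Fin r → Fin (n + 1) → K} (ha : GP a) (hr : n + 1 ≤ r) (i : Fin r) :
    a i ≠ 0 := by
  obtain ⟨J, hJ, hc⟩ := Finset.exists_superset_card_eq (s := ({i} : Finset (Fin r))) (n := n + 1)
    (by rw [Finset.card_singleton]; omega) (by rw [Fintype.card_fin]; exact hr)
  exact (ha J hc).ne_zero ⟨i, hJ (Finset.mem_singleton_self i)⟩

/-- if no `n + 1` local heights exceed `c`, their sum is at most `wt + r c` -/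
theorem sum_lam_le (f : AbsoluteValue K ℝ) {a : Fin r → Fin (n + 1) → K} (ha : GP a)
    (hr : n + 1 ≤ r) (x : Fin (n + 1) → K) {c : ℝ} (hc0 : 0 ≤ c)
    (hc : ∀ J : Finset (Fin r), J.card = n + 1 → ¬ ∀ i ∈ J, c < lam f (a i) x) :
    ∑ i, lam f (a i) x ≤ wt f a x + r * c := by
  classical
  set I : Finset (Fin r) := univ.filter fun i => c < lam f (a i) x with hI
  have hcard : I.card ≤ n := by
    by_contra hcon
    push Not at hcon
    obtain ⟨J, hJ, hJc⟩ := Finset.exists_subset_card_eq (Nat.succ_le_of_lt hcon)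
    exact hc J hJc fun i hi => (Finset.mem_filter.1 (hJ hi)).2
  obtain ⟨J, hJ, hJc⟩ := Finset.exists_superset_card_eq (s := I) (n := n + 1)
    (by omega) (by rw [Fintype.card_fin]; exact hr)
  have hind : LinearIndependent K (fun i : I => a i) :=
    (ha J hJc).comp (fun i : I => (⟨i.1, hJ i.2⟩ : J))
      (fun i j hij => Subtype.ext (congrArg (fun z : J => z.1) hij))
  have h1 := le_wt f a x I hind
  have h2 : ∑ i, lam f (a i) x = ∑ i ∈ I, lam f (a i) x +
      ∑ i ∈ univ.filter (fun i => ¬ c < lam f (a i) x), lam f (a i) x :=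
    (Finset.sum_filter_add_sum_filter_not univ _ _).symm
  have h3 : ∑ i ∈ univ.filter (fun i => ¬ c < lam f (a i) x), lam f (a i) x ≤ r * c := by
    calc ∑ i ∈ univ.filter (fun i => ¬ c < lam f (a i) x), lam f (a i) x
        ≤ ∑ _i ∈ univ.filter (fun i => ¬ c < lam f (a i) x), c :=
          Finset.sum_le_sum fun i hi => not_lt.1 (Finset.mem_filter.1 hi).2
      _ ≤ ∑ _i : Fin r, c :=
          Finset.sum_le_sum_of_subset_of_nonneg (Finset.filter_subset _ _) fun _ _ _ => hc0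
      _ = r * c := by rw [Finset.sum_const, Finset.card_univ, Fintype.card_fin, nsmul_eq_mul]
  linarith

theorem wt_le_sum (f : AbsoluteValue K ℝ) (a : Fin r → Fin (n + 1) → K) (x : Fin (n + 1) → K)
    {b : ℝ} (hb0 : 0 ≤ b) (hb : ∀ i, -b ≤ lam f (a i) x) :
    wt f a x ≤ ∑ i, lam f (a i) x + r * b := by
  classical
  obtain ⟨I, -, he⟩ := wt_att f a x
  rw [he]
  have h1 : ∑ i ∈ I, (lam f (a i) x + b) ≤ ∑ i, (lam f (a i) x + b) :=
    Finset.sum_le_sum_of_subset_of_nonneg (Finset.subset_univ _) fun i _ _ => by linarith [hb i]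
  have h2 : ∑ i ∈ I, lam f (a i) x ≤ ∑ i ∈ I, (lam f (a i) x + b) :=
    Finset.sum_le_sum fun i _ => by linarith
  have h3 : ∑ i, (lam f (a i) x + b) = ∑ i, lam f (a i) x + r * b := by
    rw [Finset.sum_add_distrib, Finset.sum_const, Finset.card_univ, Fintype.card_fin, nsmul_eq_mul]
  linarith

theorem lt_of_lt_lam (f : AbsoluteValue K ℝ) {b x : Fin (n + 1) → K} (hb : b ≠ 0) (hx : x ≠ 0)
    (hl : lin b x ≠ 0) {c : ℝ} (h : c < lam f b x) :
    f (lin b x) * Real.exp c < (⨆ j, f (b j)) * (⨆ j, f (x j)) := by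
  have hp1 := sup_pos f hb
  have hp2 := sup_pos f hx
  have hp3 := f.pos hl
  unfold lam at h
  rw [Real.lt_log_iff_exp_lt (by positivity), lt_div_iff₀ hp3] at h
  linarith

/-- the constant for an arbitrary place -/
noncomputable def E (f : AbsoluteValue K ℝ) (a : Fin r → Fin (n + 1) → K)
    (c : Finset (Fin r) → Fin (n + 1) → Fin r → K) : ℝ :=
  ∑ J : Finset (Fin r), ∑ j : Fin (n + 1), ∑ i : Fin r, f (c J j i) * ⨆ k, f (a i k)

theorem sup_nonneg (f : AbsoluteValue K ℝ) (x : Fin (n + 1) → K) : 0 ≤ ⨆ j, f (x j) := by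
  obtain ⟨j, hj⟩ := sup_att f x
  rw [hj]; exact f.nonneg _

theorem E_nonneg (f : AbsoluteValue K ℝ) (a : Fin r → Fin (n + 1) → K)
    (c : Finset (Fin r) → Fin (n + 1) → Fin r → K) : 0 ≤ E f a c :=
  Finset.sum_nonneg fun _ _ => Finset.sum_nonneg fun _ _ => Finset.sum_nonneg fun _ _ =>
    mul_nonneg (f.nonneg _) (sup_nonneg f _)

/-- inverse coefficients -/
def Inv (a : Fin r → Fin (n + 1) → K) (c : Finset (Fin r) → Fin (n + 1) → Fin r → K) : Prop :=
  ∀ J : Finset (Fin r), J.card = n + 1 → ∀ (x : Fin (n + 1) → K) (j : Fin (n + 1)),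
    x j = ∑ i ∈ J, c J j i * lin (a i) x

theorem not_all (f : AbsoluteValue K ℝ) {a : Fin r → Fin (n + 1) → K} (ha0 : ∀ i, a i ≠ 0)
    {c : Finset (Fin r) → Fin (n + 1) → Fin r → K} (hc : Inv a c) {x : Fin (n + 1) → K}
    (hx : x ≠ 0) (hl : ∀ i, lin (a i) x ≠ 0) (J : Finset (Fin r)) (hJ : J.card = n + 1) :
    ¬ ∀ i ∈ J, Real.log (1 + E f a c) < lam f (a i) x := by
  intro h
  have hE := E_nonneg f a c
  obtain ⟨j, hj⟩ := sup_att f x
  have hsx := sup_pos f hx
  have h1 : f (x j) ≤ ∑ i ∈ J, f (c J j i) * f (lin (a i) x) := by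
    conv_lhs => rw [hc J hJ x j]
    refine (f.sum_le _ _).trans (Finset.sum_le_sum fun i _ => ?_)
    rw [f.map_mul]
  have h2 : ∀ i ∈ J, f (c J j i) * f (lin (a i) x) * (1 + E f a c) ≤
      f (c J j i) * (⨆ k, f (a i k)) * ⨆ k, f (x k) := by
    intro i hi
    have h3 := (lt_of_lt_lam f (ha0 i) hx (hl i) (h i hi)).le
    rw [Real.exp_log (by linarith)] at h3
    calc f (c J j i) * f (lin (a i) x) * (1 + E f a c) =
          f (c J j i) * (f (lin (a i) x) * (1 + E f a c)) := by ring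
      _ ≤ f (c J j i) * ((⨆ k, f (a i k)) * ⨆ k, f (x k)) :=
          mul_le_mul_of_nonneg_left h3 (f.nonneg _)
      _ = _ := by ring
  have h3 : ∑ i ∈ J, f (c J j i) * (⨆ k, f (a i k)) ≤ E f a c := by
    calc ∑ i ∈ J, f (c J j i) * (⨆ k, f (a i k)) ≤ ∑ i : Fin r, f (c J j i) * (⨆ k, f (a i k)) :=
          Finset.sum_le_sum_of_subset_of_nonneg (Finset.subset_univ _)
            fun _ _ _ => mul_nonneg (f.nonneg _) (sup_nonneg f _)
      _ ≤ ∑ j : Fin (n + 1), ∑ i : Fin r, f (c J j i) * (⨆ k, f (a i k)) :=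
          Finset.single_le_sum (f := fun j => ∑ i : Fin r, f (c J j i) * (⨆ k, f (a i k)))
            (fun _ _ => Finset.sum_nonneg fun _ _ => mul_nonneg (f.nonneg _) (sup_nonneg f _))
            (Finset.mem_univ j)
      _ ≤ _ := Finset.single_le_sum
            (f := fun J => ∑ j : Fin (n + 1), ∑ i : Fin r, f (c J j i) * (⨆ k, f (a i k)))
            (fun _ _ => Finset.sum_nonneg fun _ _ => Finset.sum_nonneg fun _ _ =>
              mul_nonneg (f.nonneg _) (sup_nonneg f _)) (Finset.mem_univ J)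
  have h4 : f (x j) * (1 + E f a c) ≤ E f a c * ⨆ k, f (x k) := by
    calc f (x j) * (1 + E f a c) ≤ (∑ i ∈ J, f (c J j i) * f (lin (a i) x)) * (1 + E f a c) :=
          mul_le_mul_of_nonneg_right h1 (by linarith)
      _ = ∑ i ∈ J, f (c J j i) * f (lin (a i) x) * (1 + E f a c) := by rw [Finset.sum_mul]
      _ ≤ ∑ i ∈ J, f (c J j i) * (⨆ k, f (a i k)) * ⨆ k, f (x k) := Finset.sum_le_sum h2
      _ = (∑ i ∈ J, f (c J j i) * (⨆ k, f (a i k))) * ⨆ k, f (x k) := by rw [Finset.sum_mul]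
      _ ≤ _ := mul_le_mul_of_nonneg_right h3 hsx.le
  rw [← hj] at h4
  nlinarith

variable [NumberField K]

theorem exists_inv {a : Fin r → Fin (n + 1) → K} (ha : GP a) :
    ∃ c : Finset (Fin r) → Fin (n + 1) → Fin r → K, Inv a c := by
  classical
  have h : ∀ J : Finset (Fin r), ∃ c : Fin (n + 1) → Fin r → K, J.card = n + 1 →
      ∀ (x : Fin (n + 1) → K) (j : Fin (n + 1)), x j = ∑ i ∈ J, c j i * lin (a i) x := by
    intro J
    by_cases hJ : J.card = n + 1
    · obtain ⟨c, hc⟩ := Pool.Agent.H57R3.VJ.inv_coeff hJ (ha J hJ)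
      refine ⟨fun j i => if hi : i ∈ J then c j ⟨i, hi⟩ else 0, fun _ x j => ?_⟩
      rw [hc x j, ← Finset.sum_coe_sort J]
      refine Finset.sum_congr rfl fun i _ => ?_
      show _ = (if hi : (i : Fin r) ∈ J then c j ⟨i, hi⟩ else 0) * lin (a i) x
      rw [dif_pos i.2]
      rfl
    · exact ⟨fun _ _ => 0, fun h => absurd h hJ⟩
  choose c hc using h
  exact ⟨c, fun J hJ => hc J hJ⟩

/-- at almost all primes at most `n` local heights are positive -/
theorem exists_S0 {a : Fin r → Fin (n + 1) → K} (ha0 : ∀ i, a i ≠ 0)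
    {c : Finset (Fin r) → Fin (n + 1) → Fin r → K} (hc : Inv a c) :
    ∃ S0 : Finset (HeightOneSpectrum (𝓞 K)), ∀ v ∉ S0, ∀ x : Fin (n + 1) → K, x ≠ 0 →
      (∀ i, lin (a i) x ≠ 0) → ∀ J : Finset (Fin r), J.card = n + 1 →
        ¬ ∀ i ∈ J, 0 < lam (fv v) (a i) x := by
  classical
  have hgt : ∀ u : K, {v : HeightOneSpectrum (𝓞 K) | 1 < fv v u}.Finite := by
    intro u
    by_cases hu : u = 0
    · convert Set.finite_empty
      ext v
      simp [hu]
    · refine (fv_support_finite hu).subset ?_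
      intro v hv
      exact ne_of_gt hv
  have h1 : (⋃ i : Fin r, ⋃ j : Fin (n + 1), {v : HeightOneSpectrum (𝓞 K) | 1 < fv v (a i j)}).Finite :=
    Set.finite_iUnion fun i => Set.finite_iUnion fun j => hgt _
  have h2 : (⋃ J : Finset (Fin r), ⋃ j : Fin (n + 1), ⋃ i : Fin r,
      {v : HeightOneSpectrum (𝓞 K) | 1 < fv v (c J j i)}).Finite :=
    Set.finite_iUnion fun J => Set.finite_iUnion fun j => Set.finite_iUnion fun i => hgt _
  refine ⟨h1.toFinset ∪ h2.toFinset, ?_⟩
  intro v hv x hx hl J hJ hall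
  have ha1 : ∀ i j, fv v (a i j) ≤ 1 := by
    intro i j
    by_contra hcon
    apply hv
    rw [Finset.mem_union, Set.Finite.mem_toFinset]
    exact Or.inl (Set.mem_iUnion.2 ⟨i, Set.mem_iUnion.2 ⟨j, not_le.1 hcon⟩⟩)
  have hc1 : ∀ J j i, fv v (c J j i) ≤ 1 := by
    intro J j i
    by_contra hcon
    apply hv
    rw [Finset.mem_union, Set.Finite.mem_toFinset, Set.Finite.mem_toFinset]
    exact Or.inr (Set.mem_iUnion.2 ⟨J, Set.mem_iUnion.2 ⟨j, Set.mem_iUnion.2 ⟨i, not_le.1 hcon⟩⟩⟩)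
  obtain ⟨j, hj⟩ := sup_att (fv v) x
  have hsx := sup_pos (fv v) hx
  have h3 : ∀ i ∈ J, fv v (lin (a i) x) < ⨆ k, fv v (x k) := by
    intro i hi
    have h4 := lt_of_lt_lam (fv v) (ha0 i) hx (hl i) (hall i hi)
    rw [Real.exp_zero, mul_one] at h4
    have h5 : (⨆ k, fv v (a i k)) ≤ 1 := ciSup_le fun k => ha1 i k
    nlinarith
  -- the largest value among `J`
  have hJne : J.Nonempty := by
    rw [← Finset.card_pos, hJ]
    omega
  obtain ⟨i₀, hi₀, hmax⟩ := Finset.exists_max_image J (fun i => fv v (lin (a i) x)) hJne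
  have h6 : fv v (x j) ≤ fv v (lin (a i₀) x) := by
    rw [hc J hJ x j]
    refine fv_sum_le v J _ ((fv v).nonneg _) fun i hi => ?_
    rw [map_mul]
    calc fv v (c J j i) * fv v (lin (a i) x) ≤ 1 * fv v (lin (a i) x) :=
          mul_le_mul_of_nonneg_right (hc1 J j i) ((fv v).nonneg _)
      _ = fv v (lin (a i) x) := one_mul _
      _ ≤ _ := hmax i hi
  have h7 := h3 i₀ hi₀
  rw [hj] at h7
  exact absurd h6 (not_le.2 h7)

/-- the sum over the places of the logarithms of the suprema -/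
theorem logHeight_sum {x : Fin (n + 1) → K} (hx : x ≠ 0) {T : Finset (HeightOneSpectrum (𝓞 K))}
    (hT : ∀ v ∉ T, (⨆ j, fv v (x j)) = 1) :
    logHeight x = ∑ w : InfinitePlace K, (w.mult : ℝ) * Real.log (⨆ j, w.1 (x j)) +
      ∑ v ∈ T, Real.log (⨆ j, fv v (x j)) := by
  have hpos : ∀ w : InfinitePlace K, 0 < ⨆ j, w (x j) := fun w => sup_pos w.1 hx
  have hpos2 : ∀ v : HeightOneSpectrum (𝓞 K), 0 < ⨆ j, fv v (x j) := fun v => sup_pos (fv v) hx
  have e0 : ∏ᶠ v : FinitePlace K, (⨆ i, v (x i)) = ∏ v ∈ T, ⨆ j, fv v (x j) := by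
    have h2 : ∀ v : HeightOneSpectrum (𝓞 K), (⨆ i,
        ((FinitePlace.equivHeightOneSpectrum (K := K)).symm v) (x i)) = ⨆ j, fv v (x j) :=
      fun v => rfl
    rw [← finprod_comp_equiv (FinitePlace.equivHeightOneSpectrum (K := K)).symm]
    simp_rw [h2]
    refine finprod_eq_prod_of_mulSupport_subset _ ?_
    intro v hv
    by_contra hcon
    exact hv (hT v hcon)
  rw [logHeight_eq_log_mulHeight, NumberField.mulHeight_eq hx, e0,
    Real.log_mul (Finset.prod_pos fun w _ => pow_pos (hpos w) _).ne'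
      (Finset.prod_pos fun v _ => hpos2 v).ne', Real.log_prod, Real.log_prod]
  · congr 1
    refine Finset.sum_congr rfl fun w _ => ?_
    rw [Real.log_pow]
    rfl
  · intro v _
    exact (hpos2 v).ne'
  · intro w _
    exact (pow_pos (hpos w) _).ne'

theorem sup_support {x : Fin (n + 1) → K} (hx : x ≠ 0) :
    {v : HeightOneSpectrum (𝓞 K) | (⨆ j, fv v (x j)) ≠ 1}.Finite := by
  have h1 : (⋃ j ∈ {j : Fin (n + 1) | x j ≠ 0}, {v : HeightOneSpectrum (𝓞 K) | fv v (x j) ≠ 1}).Finite :=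
    Set.Finite.biUnion (Set.toFinite _) fun j hj => fv_support_finite hj
  refine h1.subset ?_
  intro v hv
  by_contra hne
  apply hv
  simp only [Set.mem_iUnion, Set.mem_ofPred_eq, not_exists, not_not] at hne
  obtain ⟨k, hk⟩ := sup_att (fv v) x
  have hpos := sup_pos (fv v) hx
  rw [hk] at hpos ⊢
  refine hne k ?_
  intro h0
  rw [h0, map_zero] at hpos
  exact lt_irrefl _ hpos

/-- the sum of the local heights over all places -/
theorem tot {b x : Fin (n + 1) → K} (hb : b ≠ 0) (hx : x ≠ 0) (hl : lin b x ≠ 0) :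
    ∃ T₀ : Finset (HeightOneSpectrum (𝓞 K)), ∀ T : Finset (HeightOneSpectrum (𝓞 K)), T₀ ⊆ T →
      ∑ w : InfinitePlace K, (w.mult : ℝ) * lam w.1 b x + ∑ v ∈ T, lam (fv v) b x =
        logHeight b + logHeight x := by
  classical
  refine ⟨(sup_support hb).toFinset ∪ (sup_support hx).toFinset ∪ (fv_support_finite hl).toFinset, ?_⟩
  intro T hT
  have hlam : ∀ f : AbsoluteValue K ℝ, lam f b x = Real.log (⨆ j, f (b j)) +
      Real.log (⨆ j, f (x j)) - Real.log (f (lin b x)) := by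
    intro f
    have h1 := sup_pos f hb
    have h2 := sup_pos f hx
    have h3 := f.pos hl
    unfold lam
    rw [Real.log_div (mul_pos h1 h2).ne' h3.ne', Real.log_mul h1.ne' h2.ne']
  have m1 : ∀ v ∉ T, (⨆ j, fv v (b j)) = 1 := by
    intro v hv
    by_contra hcon
    apply hv
    apply hT
    rw [Finset.mem_union, Finset.mem_union, Set.Finite.mem_toFinset]
    exact Or.inl (Or.inl hcon)
  have m2 : ∀ v ∉ T, (⨆ j, fv v (x j)) = 1 := by
    intro v hv
    by_contra hcon
    apply hv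
    apply hT
    rw [Finset.mem_union, Finset.mem_union, Set.Finite.mem_toFinset, Set.Finite.mem_toFinset]
    exact Or.inl (Or.inr hcon)
  have m3 : ∑ᶠ v : HeightOneSpectrum (𝓞 K), Real.log (fv v (lin b x)) =
      ∑ v ∈ T, Real.log (fv v (lin b x)) := by
    refine finsum_eq_sum_of_support_subset _ ?_
    intro v hv
    by_contra hcon
    apply hcon
    apply hT
    rw [Finset.mem_union]
    right
    rw [Set.Finite.mem_toFinset]
    intro h
    exact hv (by
      show Real.log (fv v (lin b x)) = 0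
      rw [h, Real.log_one])
  have hpf := log_product_formula hl
  rw [m3] at hpf
  rw [logHeight_sum hb m1, logHeight_sum hx m2]
  simp only [hlam]
  simp only [mul_add, mul_sub, Finset.sum_add_distrib, Finset.sum_sub_distrib]
  have e1 : ∑ w : InfinitePlace K, (w.mult : ℝ) * Real.log (w.1 (lin b x)) =
      ∑ w : InfinitePlace K, (w.mult : ℝ) * Real.log (w (lin b x)) := rfl
  rw [e1]
  linarith

theorem lin_le_inf (w : InfinitePlace K) (b x : Fin (n + 1) → K) :
    w.1 (lin b x) ≤ ((n : ℝ) + 1) * ((⨆ j, w.1 (b j)) * ⨆ j, w.1 (x j)) := by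
  unfold lin
  refine (w.1.sum_le _ _).trans ?_
  calc ∑ j, w.1 (b j * x j) ≤ ∑ _j : Fin (n + 1), (⨆ j, w.1 (b j)) * ⨆ j, w.1 (x j) := by
        refine Finset.sum_le_sum fun j _ => ?_
        rw [w.1.map_mul]
        exact mul_le_mul (sup_le_of _ b j) (sup_le_of _ x j) (w.1.nonneg _) (sup_nonneg _ _)
    _ = _ := by
        rw [Finset.sum_const, Finset.card_univ, Fintype.card_fin, nsmul_eq_mul]
        push_cast
        ring

theorem lam_inf_ge (w : InfinitePlace K) {b x : Fin (n + 1) → K} (hb : b ≠ 0) (hx : x ≠ 0)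
    (hl : lin b x ≠ 0) : -Real.log ((n : ℝ) + 1) ≤ lam w.1 b x := by
  have h1 := sup_pos w.1 hb
  have h2 := sup_pos w.1 hx
  have h3 := w.1.pos hl
  have h4 := lin_le_inf w b x
  have hn : (0 : ℝ) < (n : ℝ) + 1 := by positivity
  unfold lam
  rw [neg_le, ← Real.log_inv, inv_div]
  refine Real.log_le_log (by positivity) ?_
  rw [div_le_iff₀ (by positivity)]
  exact h4

/-- **The height of the arrangement is `r` times the height.** -/
theorem hW_eq_height {a : Fin r → Fin (n + 1) → K} (ha : GP a) (hr : n + 1 ≤ r) :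
    ∃ C : ℝ, 0 ≤ C ∧ ∀ x : Fin (n + 1) → K, x ≠ 0 → (∀ i, lin (a i) x ≠ 0) →
      (r : ℝ) * logHeight x - C ≤ hW a x ∧ hW a x ≤ (r : ℝ) * logHeight x + C := by
  classical
  have ha0 := ha.ne_zero hr
  obtain ⟨c, hc⟩ := exists_inv ha
  obtain ⟨S0, hS0⟩ := exists_S0 ha0 hc
  have hn1 : 0 ≤ Real.log ((n : ℝ) + 1) := Real.log_nonneg (by
    have : (0 : ℝ) ≤ n := Nat.cast_nonneg n
    linarith)
  have hr0 : (0 : ℝ) ≤ r := Nat.cast_nonneg r
  have hcf : ∀ f : AbsoluteValue K ℝ, 0 ≤ Real.log (1 + E f a c) := fun f =>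
    Real.log_nonneg (by linarith [E_nonneg f a c])
  set C1 : ℝ := ∑ w : InfinitePlace K, (w.mult : ℝ) * (r * Real.log ((n : ℝ) + 1)) with hC1
  set C2 : ℝ := ∑ w : InfinitePlace K, (w.mult : ℝ) * (r * Real.log (1 + E w.1 a c)) with hC2
  set C3 : ℝ := ∑ v ∈ S0, (r : ℝ) * Real.log (1 + E (fv v) a c) with hC3
  set C4 : ℝ := ∑ i, logHeight (a i) with hC4
  have p1 : 0 ≤ C1 := Finset.sum_nonneg fun w _ => mul_nonneg (Nat.cast_nonneg _) (mul_nonneg hr0 hn1)
  have p2 : 0 ≤ C2 := Finset.sum_nonneg fun w _ =>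
    mul_nonneg (Nat.cast_nonneg _) (mul_nonneg hr0 (hcf _))
  have p3 : 0 ≤ C3 := Finset.sum_nonneg fun v _ => mul_nonneg hr0 (hcf _)
  have p4 : 0 ≤ C4 := Finset.sum_nonneg fun i _ => logHeight_nonneg _
  refine ⟨C1 + C2 + C3 + C4, by positivity, fun x hx hl => ?_⟩
  choose T₀ hT₀ using fun i => tot (ha0 i) hx (hl i)
  obtain ⟨T₁, hT₁⟩ := exists_T ha0 hx hl
  set T : Finset (HeightOneSpectrum (𝓞 K)) := T₁ ∪ S0 ∪ univ.biUnion T₀ with hT
  have hTz : ∀ v ∉ T, ∀ i, lam (fv v) (a i) x = 0 := by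
    intro v hv i
    refine hT₁ v (fun h => hv ?_) i
    rw [hT, Finset.mem_union, Finset.mem_union]
    exact Or.inl (Or.inl h)
  have hsum : ∑ w : InfinitePlace K, (w.mult : ℝ) * ∑ i, lam w.1 (a i) x +
      ∑ v ∈ T, ∑ i, lam (fv v) (a i) x = C4 + r * logHeight x := by
    have h1 : ∀ i, ∑ w : InfinitePlace K, (w.mult : ℝ) * lam w.1 (a i) x +
        ∑ v ∈ T, lam (fv v) (a i) x = logHeight (a i) + logHeight x := by
      intro i
      refine hT₀ i T ?_
      rw [hT]
      exact (Finset.subset_biUnion_of_mem T₀ (Finset.mem_univ i)).trans Finset.subset_union_right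
    have h2 := Finset.sum_congr (rfl : (univ : Finset (Fin r)) = univ) fun i _ => h1 i
    rw [Finset.sum_add_distrib, Finset.sum_add_distrib, Finset.sum_comm, Finset.sum_const,
      Finset.card_univ, Fintype.card_fin, nsmul_eq_mul] at h2
    rw [hC4, ← h2]
    congr 1
    · exact Finset.sum_congr rfl fun w _ => Finset.mul_sum _ _ _
    · exact Finset.sum_comm
  have hW : hW a x = ∑ w : InfinitePlace K, (w.mult : ℝ) * wt w.1 a x + ∑ v ∈ T, wt (fv v) a x := by
    unfold Pool.Agent.W232.VA.hW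
    congr 1
    refine finsum_eq_sum_of_support_subset _ ?_
    intro v hv
    by_contra hne
    exact hv (wt_zero (hTz v hne))
  have hm : ∀ w : InfinitePlace K, (0 : ℝ) ≤ w.mult := fun w => Nat.cast_nonneg _
  constructor
  · have g1 : ∑ w : InfinitePlace K, (w.mult : ℝ) * ∑ i, lam w.1 (a i) x ≤
        ∑ w : InfinitePlace K, (w.mult : ℝ) * wt w.1 a x + C2 := by
      rw [hC2, ← Finset.sum_add_distrib]
      refine Finset.sum_le_sum fun w _ => ?_
      rw [← mul_add]
      exact mul_le_mul_of_nonneg_left (sum_lam_le w.1 ha hr x (hcf _)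
        (not_all w.1 ha0 hc hx hl)) (hm w)
    have g2 : ∑ v ∈ T, ∑ i, lam (fv v) (a i) x ≤ ∑ v ∈ T, wt (fv v) a x + C3 := by
      have h3 : C3 = ∑ v ∈ T, if v ∈ S0 then (r : ℝ) * Real.log (1 + E (fv v) a c) else 0 := by
        rw [hC3, Finset.sum_ite_mem]
        congr 1
        symm
        rw [Finset.inter_eq_right, hT]
        exact Finset.subset_union_right.trans Finset.subset_union_left
      rw [h3, ← Finset.sum_add_distrib]
      refine Finset.sum_le_sum fun v _ => ?_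
      by_cases hv : v ∈ S0
      · rw [if_pos hv]
        exact sum_lam_le (fv v) ha hr x (hcf _) (not_all (fv v) ha0 hc hx hl)
      · rw [if_neg hv]
        have := sum_lam_le (fv v) ha hr x le_rfl (hS0 v hv x hx hl)
        rwa [mul_zero] at this
    linarith
  · have g1 : ∑ w : InfinitePlace K, (w.mult : ℝ) * wt w.1 a x ≤
        ∑ w : InfinitePlace K, (w.mult : ℝ) * ∑ i, lam w.1 (a i) x + C1 := by
      rw [hC1, ← Finset.sum_add_distrib]
      refine Finset.sum_le_sum fun w _ => ?_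
      rw [← mul_add]
      exact mul_le_mul_of_nonneg_left (wt_le_sum w.1 a x hn1 fun i =>
        lam_inf_ge w (ha0 i) hx (hl i)) (hm w)
    have g2 : ∑ v ∈ T, wt (fv v) a x ≤ ∑ v ∈ T, ∑ i, lam (fv v) (a i) x := by
      refine Finset.sum_le_sum fun v _ => ?_
      have := wt_le_sum (fv v) a x le_rfl fun i => by
        rw [neg_zero]
        exact lam_fin_nonneg v (ha0 i) hx (hl i)
      rwa [mul_zero, add_zero] at this
    linarith

end Pool.Agent.Q38.HP
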