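import Pool.Agent.Q38.HP.GP
import Pool.Agent.Q38.AE.Cover
import Pool.Agent.W232.VA.LB

/-! Hyperplanes in general position: points ordered by the truncated counting function. -/

set_option autoImplicit false
set_option linter.unusedSectionVars false

namespace Pool.Agent.Q38.HP

open NumberField IsDedekindDomain Finset Height Filter Topology LinearAlgebra.Projectivization
open Pool.Agent.H691R3 (fv Nv)
open Pool.Agent.W232.VA
open Pool.Agent.Q38.AE.Cov (A F F_sub cover tendsto_exponent)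

variable {K : Type*} [Field K] [NumberField K] {n r : ℕ}

/-- the points off the hyperplanes -/
def Off (a : Fin r → Fin (n + 1) → K) (P : ℙ K (Fin (n + 1) → K)) : Prop :=
  ∀ i, lin (a i) P.rep ≠ 0

/-- the height -/
noncomputable def Hp (P : ℙ K (Fin (n + 1) → K)) : ℝ := logHeight P.rep

/-- the counting function -/
noncomputable def Np (S : Finset (HeightOneSpectrum (𝓞 K))) (a : Fin r → Fin (n + 1) → K)
    (P : ℙ K (Fin (n + 1) → K)) : ℝ := N1 S a P.rep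

theorem Hp_eq (P : ℙ K (Fin (n + 1) → K)) : Real.log P.mulHeight = Hp P := by
  unfold Hp
  rw [logHeight_eq_log_mulHeight]
  conv_lhs => rw [← P.mk_rep]
  rw [Projectivization.mulHeight_mk]

theorem exp_Hp (P : ℙ K (Fin (n + 1) → K)) : Real.exp (Hp P) = P.mulHeight := by
  unfold Hp
  have e : P.mulHeight = mulHeight P.rep := by
    conv_lhs => rw [← P.mk_rep]
    rw [Projectivization.mulHeight_mk]
  rw [e, logHeight_eq_log_mulHeight, Real.exp_log (mulHeight_pos _)]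

theorem Hp_nonneg (P : ℙ K (Fin (n + 1) → K)) : 0 ≤ Hp P := logHeight_nonneg _

section

variable {S : Finset (HeightOneSpectrum (𝓞 K))} {a : Fin r → Fin (n + 1) → K}

/-- the bound by height -/
theorem by_height (ha : GP a) (hr : n + 1 ≤ r) {s : ℝ} (h0 : 1 / (r : ℝ) ≤ s)
    (h1 : s ≤ 2 / (2 * (r : ℝ) - 1)) (δ : ℝ) (hδ : 0 < δ) :
    ∃ C : ℝ, ∀ B : ℝ, 1 ≤ B → (A (Off a) Hp (Np S a) s B).Finite ∧
      ((A (Off a) Hp (Np S a) s B).ncard : ℝ) ≤ C * B ^ ((n : ℝ) + 1 - (r - 1 / s) + δ) := by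
  obtain ⟨C, hC0, hC⟩ := hW_eq_height ha hr
  have hr1 : (1 : ℝ) ≤ r := by
    have : 1 ≤ r := by omega
    exact_mod_cast this
  have hs0 : 0 < s := lt_of_lt_of_le (by positivity) h0
  have h21 : 0 < 2 * (r : ℝ) - 1 := by linarith
  have hκ0 : 0 ≤ (r : ℝ) - 1 / s := by
    rw [sub_nonneg, div_le_iff₀ hs0]
    rw [div_le_iff₀ (by linarith)] at h0
    linarith
  have hκ1 : (r : ℝ) - 1 / s ≤ 1 / 2 := by
    have : (r : ℝ) - 1 / 2 ≤ 1 / s := by
      rw [le_div_iff₀ hs0]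
      rw [le_div_iff₀ h21] at h1
      linarith
    linarith
  obtain ⟨M, hM⟩ := main2 a (ha.ne_zero hr) S ((r : ℝ) - 1 / s) (C + 1) δ hκ0 hκ1 hδ
  refine ⟨M, fun B hB => ?_⟩
  obtain ⟨f1, f2⟩ := hM B hB
  have hsub : A (Off a) Hp (Np S a) s B ⊆ Exc S a ((r : ℝ) - 1 / s) (C + 1) B := by
    rintro P ⟨k1, k2, k3⟩
    refine ⟨k1, ?_, ?_⟩
    · rw [exp_Hp] at k2
      exact k2
    · have k4 := (hC P.rep P.rep_nonzero k1).1
      have k5 : Np S a P = N1 S a P.rep := rfl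
      have k6 : Hp P = logHeight P.rep := rfl
      rw [Hp_eq, ← k5]
      rw [← k6] at k4
      have : ((r : ℝ) - 1 / s) * Hp P = r * Hp P - 1 / s * Hp P := by ring
      linarith
  exact ⟨f1.subset hsub, le_trans (by exact_mod_cast Set.ncard_le_ncard hsub f1) f2⟩

/-- the bound beyond the exact range -/
theorem by_height2 (ha : GP a) (hr : n + 1 ≤ r) {s : ℝ} (h1 : 2 / (2 * (r : ℝ) - 1) ≤ s)
    (δ : ℝ) (hδ : 0 < δ) :
    ∃ C : ℝ, ∀ B : ℝ, 1 ≤ B → (A (Off a) Hp (Np S a) s B).Finite ∧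
      ((A (Off a) Hp (Np S a) s B).ncard : ℝ) ≤ C * B ^ ((n : ℝ) + 1 / 2 + δ) := by
  have hr1 : (1 : ℝ) ≤ r := by
    have : 1 ≤ r := by omega
    exact_mod_cast this
  have h21 : 0 < 2 * (r : ℝ) - 1 := by linarith
  have h0 : 1 / (r : ℝ) ≤ 2 / (2 * (r : ℝ) - 1) := by
    rw [div_le_div_iff₀ (by linarith) h21]
    linarith
  obtain ⟨C, hC⟩ := by_height (S := S) ha hr h0 le_rfl δ hδ
  have e : (n : ℝ) + 1 - (r - 1 / (2 / (2 * (r : ℝ) - 1))) + δ = (n : ℝ) + 1 / 2 + δ := by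
    rw [one_div_div]
    ring
  rw [e] at hC
  refine ⟨C, fun B hB => ?_⟩
  obtain ⟨f1, f2⟩ := hC B hB
  have hsub : A (Off a) Hp (Np S a) s B ⊆ A (Off a) Hp (Np S a) (2 / (2 * (r : ℝ) - 1)) B := by
    rintro P ⟨k1, k2, k3⟩
    refine ⟨k1, k2, k3.trans_le ?_⟩
    have h2 : 1 / s ≤ 1 / (2 / (2 * (r : ℝ) - 1)) := one_div_le_one_div_of_le (by positivity) h1
    have h3 := mul_le_mul_of_nonneg_right h2 (Hp_nonneg P)
    linarith
  exact ⟨f1.subset hsub, le_trans (by exact_mod_cast Set.ncard_le_ncard hsub f1) f2⟩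

/-- **The upper bound.** -/
theorem upper (ha : GP a) (hr : n + 1 ≤ r) {M L ε : ℝ} (hM : 1 / (r : ℝ) < M) (hML : M < L)
    (hL : L ≤ 2 / (2 * (r : ℝ) - 1) ∨ ((n : ℝ) + 1 / 2) * L ≤ 1 - ((r : ℝ) - n - 1) * M)
    (hε : 0 < ε) :
    ∃ C : ℝ, 0 < C ∧ ∀ X : ℝ, 1 ≤ X →
      (Pool.Agent.Q38.AE.Cov.E (Off a) Hp (Np S a) M L X).Finite ∧
      ((Pool.Agent.Q38.AE.Cov.E (Off a) Hp (Np S a) M L X).ncard : ℝ) ≤
        C * X ^ (1 - ((r : ℝ) - n - 1) * M + ε) := by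
  have hr1 : (1 : ℝ) ≤ r := by
    have : 1 ≤ r := by omega
    exact_mod_cast this
  have hrn : (n : ℝ) + 1 ≤ r := by exact_mod_cast hr
  have hn0 : (0 : ℝ) ≤ n := Nat.cast_nonneg n
  have hM0 : 0 < M := lt_trans (by positivity) hM
  refine cover (G := (n : ℝ) + 1) hM0 hML.le (by positivity) (fun s h1 h2 => ?_) hε
  have hs0 : 0 < s := by linarith
  have hsr : 1 / (r : ℝ) ≤ s := by linarith
  have h21 : 0 < 2 * (r : ℝ) - 1 := by linarith
  rcases lt_or_ge (2 / (2 * (r : ℝ) - 1)) s with hlt | hs2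
  · have hL' : ((n : ℝ) + 1 / 2) * L ≤ 1 - ((r : ℝ) - n - 1) * M := by
      rcases hL with h | h
      · exfalso
        linarith
      · exact h
    refine ⟨(n : ℝ) + 1 / 2, by positivity, by linarith, ?_, by_height2 ha hr hlt.le⟩
    have : s * ((n : ℝ) + 1 / 2) ≤ ((n : ℝ) + 1 / 2) * L := by
      rw [mul_comm]
      exact mul_le_mul_of_nonneg_left h2 (by positivity)
    linarith
  have hκ0 : 0 ≤ (r : ℝ) - 1 / s := by
    rw [sub_nonneg, div_le_iff₀ hs0]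
    have := hsr
    rw [div_le_iff₀ (by linarith)] at this
    linarith
  have hκ1 : (r : ℝ) - 1 / s ≤ 1 / 2 := by
    have : (r : ℝ) - 1 / 2 ≤ 1 / s := by
      rw [le_div_iff₀ hs0]
      have h3 := hs2
      rw [le_div_iff₀ h21] at h3
      linarith
    linarith
  refine ⟨(n : ℝ) + 1 - (r - 1 / s), by linarith, by linarith, ?_, by_height ha hr hsr hs2⟩
  have e1 : s * ((n : ℝ) + 1 - (r - 1 / s)) = 1 - ((r : ℝ) - n - 1) * s := by
    field_simp
    ring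
  rw [e1]
  have : ((r : ℝ) - n - 1) * M ≤ ((r : ℝ) - n - 1) * s := mul_le_mul_of_nonneg_left h1 (by linarith)
  linarith

/-- **The lower bound.** -/
theorem lowerN (hn : 1 ≤ n) (ha : GP a) (hr : n + 1 ≤ r) {M L₀ ε : ℝ} (hM : 1 / (r : ℝ) < M)
    (hML₀ : M < L₀)
    (hL₀ : L₀ ≤ 2 / (2 * (r : ℝ) - 1) ∨ ((n : ℝ) + 1 / 2) * L₀ ≤ 1 - ((r : ℝ) - n - 1) * M)
    (hε : 0 < ε) :
    ∃ X₀ : ℝ, ∀ X : ℝ, X₀ ≤ X →
      X ^ (1 - ((r : ℝ) - n - 1) * M - ε) ≤ ((F (Off a) Hp (Np S a) M L₀ X).ncard : ℝ) := by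
  have hr1 : (1 : ℝ) ≤ r := by
    have : 1 ≤ r := by omega
    exact_mod_cast this
  have hrn : (n : ℝ) + 1 ≤ r := by exact_mod_cast hr
  have hM0 : 0 < M := lt_trans (by positivity) hM
  have h21 : 0 < 2 * (r : ℝ) - 1 := by linarith
  obtain ⟨L, hML, hLL₀, hL⟩ : ∃ L : ℝ, M < L ∧ L ≤ L₀ ∧ L ≤ 2 / (2 * (r : ℝ) - 1) := by
    refine ⟨min L₀ (2 / (2 * (r : ℝ) - 1)), lt_min hML₀ ?_, min_le_left _ _, min_le_right _ _⟩
    rcases hL₀ with h | h
    · linarith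
    · rw [lt_div_iff₀ h21]
      have h1 : ((n : ℝ) + 1 / 2) * M < ((n : ℝ) + 1 / 2) * L₀ :=
        mul_lt_mul_of_pos_left hML₀ (by positivity)
      nlinarith
  -- a slightly larger parameter
  obtain ⟨M', hM1, hM2, hM3⟩ : ∃ M' : ℝ, M < M' ∧ M' < L ∧ M * (1 / M - 1 / M') ≤ ε / 2 := by
    refine ⟨min ((M + L) / 2) (M * (1 + ε / 2)), lt_min (by linarith) (by nlinarith),
      lt_of_le_of_lt (min_le_left _ _) (by linarith), ?_⟩
    obtain ⟨m, hm⟩ : ∃ m : ℝ, m = min ((M + L) / 2) (M * (1 + ε / 2)) := ⟨_, rfl⟩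
    rw [← hm]
    have g1 : M < m := by rw [hm]; exact lt_min (by linarith) (by nlinarith)
    have g2 : m ≤ M * (1 + ε / 2) := by rw [hm]; exact min_le_right _ _
    have hm0 : 0 < m := by linarith
    have e : M * (1 / M - 1 / m) = (m - M) / m := by field_simp
    rw [e, div_le_iff₀ hm0]
    nlinarith
  have hM'0 : 0 < M' := by linarith
  have hκ0 : 0 ≤ (r : ℝ) - 1 / M' := by
    rw [sub_nonneg, div_le_iff₀ hM'0]
    rw [div_lt_iff₀ (by linarith)] at hM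
    nlinarith
  have hκ1 : (r : ℝ) - 1 / M' < 1 := by
    have : (r : ℝ) - 1 / 2 ≤ 1 / M' := by
      rw [le_div_iff₀ hM'0]
      rw [le_div_iff₀ h21] at hL
      nlinarith
    linarith
  obtain ⟨C, hC0, hC⟩ := hW_eq_height ha hr
  obtain ⟨c₀, hc₀⟩ := Pool.Agent.W232.VA.lower hn (by omega) a (ha.ne_zero hr) S
    ((r : ℝ) - 1 / M') hκ0 hκ1
  obtain ⟨m, hm0, B₀, hB₀, hlow⟩ := hc₀ c₀ le_rfl
  obtain ⟨g, hg⟩ : ∃ g : ℝ, g = (n : ℝ) + 1 - (r - 1 / M') := ⟨_, rfl⟩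
  have hn0 : (1 : ℝ) ≤ n := by exact_mod_cast hn
  have hgpos : 0 < g := by rw [hg]; linarith
  have hinv : 1 / M' < 1 / M := one_div_lt_one_div_of_lt hM0 hM1
  -- the height beyond which the constant does not matter
  obtain ⟨h₀, hh₀⟩ : ∃ h₀ : ℝ, C + c₀ + 1 ≤ (1 / M - 1 / M') * h₀ := by
    refine ⟨(C + c₀ + 1) / (1 / M - 1 / M'), ?_⟩
    rw [mul_div_cancel₀ _ (by linarith : (1 / M - 1 / M') ≠ 0)]
  have hZ : ∃ C' : ℝ, 0 < C' ∧ ∀ᶠ B : ℝ in atTop, C' * B ^ g ≤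
      (({P | Off a P ∧ Real.exp (Hp P) ≤ B ∧ Np S a P < 1 / M * Hp P} :
        Set (ℙ K (Fin (n + 1) → K))).ncard : ℝ) := by
    obtain ⟨C₅, hC₅⟩ := by_height (S := S) ha hr hM.le (hML.le.trans hL) 1 one_pos
    obtain ⟨M₆, hM₆⟩ := main2 a (ha.ne_zero hr) S ((r : ℝ) - 1 / M') c₀ 1 hκ0 (by
      have : (r : ℝ) - 1 / 2 ≤ 1 / M' := by
        rw [le_div_iff₀ hM'0]
        have hL' := hL
        rw [le_div_iff₀ h21] at hL'
        nlinarith
      linarith) one_pos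
    obtain ⟨f7, -⟩ := hM₆ (max 1 (Real.exp h₀)) (le_max_left _ _)
    have t1 : Tendsto (fun B : ℝ => m / 2 * B ^ g) atTop atTop :=
      (tendsto_rpow_atTop hgpos).const_mul_atTop (by positivity)
    refine ⟨m / 2, by positivity, ?_⟩
    filter_upwards [eventually_ge_atTop B₀, eventually_ge_atTop 1,
      t1.eventually (eventually_ge_atTop
        ((Exc S a ((r : ℝ) - 1 / M') c₀ (max 1 (Real.exp h₀))).ncard : ℝ))] with B hB hB1 hB2
    have k1 := hlow B hB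
    rw [← hg] at k1
    obtain ⟨f1, -⟩ := hM₆ B hB1
    have hfin : ({P | Off a P ∧ Real.exp (Hp P) ≤ B ∧ Np S a P < 1 / M * Hp P} :
        Set (ℙ K (Fin (n + 1) → K))).Finite := by
      refine (hC₅ B hB1).1.subset ?_
      rintro P ⟨k1, k2, k3⟩
      exact ⟨k1, k2, k3.trans (lt_add_one _)⟩
    have hsub : Exc S a ((r : ℝ) - 1 / M') c₀ B ⊆
        {P | Off a P ∧ Real.exp (Hp P) ≤ B ∧ Np S a P < 1 / M * Hp P} ∪
          Exc S a ((r : ℝ) - 1 / M') c₀ (max 1 (Real.exp h₀)) := by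
      rintro P ⟨j1, j2, j3⟩
      by_cases hh : h₀ ≤ Hp P
      · left
        refine ⟨j1, by rw [exp_Hp]; exact j2, ?_⟩
        have j4 := (hC P.rep P.rep_nonzero j1).2
        have k5 : Np S a P = N1 S a P.rep := rfl
        have k6 : Hp P = logHeight P.rep := rfl
        rw [Hp_eq, ← k5] at j3
        rw [← k6] at j4
        have j5 : (1 / M - 1 / M') * h₀ ≤ (1 / M - 1 / M') * Hp P :=
          mul_le_mul_of_nonneg_left hh (by linarith)
        have e1 : ((r : ℝ) - 1 / M') * Hp P = r * Hp P - 1 / M' * Hp P := by ring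
        have e2 : (1 / M - 1 / M') * Hp P = 1 / M * Hp P - 1 / M' * Hp P := by ring
        show Np S a P < 1 / M * Hp P
        linarith
      · right
        push Not at hh
        refine ⟨j1, ?_, j3⟩
        rw [← exp_Hp]
        exact (Real.exp_le_exp.2 hh.le).trans (le_max_right _ _)
    have h9 : ((Exc S a ((r : ℝ) - 1 / M') c₀ B).ncard : ℝ) ≤
        (({P | Off a P ∧ Real.exp (Hp P) ≤ B ∧ Np S a P < 1 / M * Hp P} :
        Set (ℙ K (Fin (n + 1) → K))).ncard : ℝ) +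
          ((Exc S a ((r : ℝ) - 1 / M') c₀ (max 1 (Real.exp h₀))).ncard : ℝ) := by
      exact_mod_cast (Set.ncard_le_ncard hsub (hfin.union f7)).trans (Set.ncard_union_le _ _)
    linarith
  have h1 := Pool.Agent.Q38.AE.Cov.lower (L := L₀) (L' := L) (g := g)
    (g' := (n : ℝ) + 1 - (r - 1 / L)) (ε := ε / 2) hM0 hML hLL₀
    (fun P _ => Hp_nonneg P) hZ ?_ (by_height (S := S) ha hr (by linarith) hL) ?_ (by positivity)
  · obtain ⟨X₀, hX₀⟩ := h1
    refine ⟨max X₀ 1, fun X hX => ?_⟩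
    have h2 := hX₀ X ((le_max_left _ _).trans hX)
    have hX1 : 1 ≤ X := (le_max_right _ _).trans hX
    refine le_trans (Real.rpow_le_rpow_of_exponent_le hX1 ?_) h2
    have e1 : M * g = 1 - ((r : ℝ) - n - 1) * M - M * (1 / M - 1 / M') := by
      rw [hg]
      field_simp
      ring
    rw [e1]
    linarith
  · obtain ⟨C, -, hC⟩ := upper (S := S) ha hr hM hML₀ hL₀ one_pos
    exact fun X hX => (hC X hX).1
  · rw [hg]
    have : 1 / L < 1 / M' := one_div_lt_one_div_of_lt hM'0 hM2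
    linarith

end

end Pool.Agent.Q38.HP
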